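import Mathlib

/-!
# Three projections with coherence `1/3` (for `MP_f5e42a_co`)
-/

namespace Pool.Agent.T2H59.EI

open Module

variable {𝕜 E : Type*} [RCLike 𝕜] [NormedAddCommGroup E] [InnerProductSpace 𝕜 E]

/-- The relations between two of the projections. -/
structure Pair (P Q : E →ₗ[𝕜] E) : Prop where
  pqp : ∀ x, P (Q (P x)) = (1 / 9 : 𝕜) • P x
  qpq : ∀ x, Q (P (Q x)) = (1 / 9 : 𝕜) • Q x
  npq : ∀ x, ‖P (Q x)‖ = (1 / 3 : ℝ) * ‖Q x‖
  nqp : ∀ x, ‖Q (P x)‖ = (1 / 3 : ℝ) * ‖P x‖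

lemma Pair.symm {P Q : E →ₗ[𝕜] E} (h : Pair P Q) : Pair Q P :=
  ⟨h.qpq, h.pqp, h.nqp, h.npq⟩

/-- Three idempotents with the relations. -/
structure Triple (P Q R : E →ₗ[𝕜] E) : Prop where
  pp : ∀ x, P (P x) = P x
  qq : ∀ x, Q (Q x) = Q x
  rr : ∀ x, R (R x) = R x
  pq : Pair P Q
  pr : Pair P R
  qr : Pair Q R

lemma Triple.rot {P Q R : E →ₗ[𝕜] E} (h : Triple P Q R) : Triple Q R P :=
  ⟨h.qq, h.rr, h.pp, h.qr, h.pq.symm, h.pr.symm⟩

/-- The equations satisfied by the components of an eigenvector. -/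
lemma Triple.eqs {P Q R : E →ₗ[𝕜] E} (h : Triple P Q R) {x : E}
    (hx : P x + Q x + R x = (14 / 9 : 𝕜) • x) :
    P (Q x) + P (R x) = (5 / 9 : 𝕜) • P x := by
  have h1 := congrArg P hx
  rw [map_add, map_add, map_smul, h.pp] at h1
  have h2 : P (Q x) + P (R x) = (14 / 9 : 𝕜) • P x - P x := by
    rw [← h1]; abel
  rw [h2]
  module

lemma Triple.cubic {P Q R : E →ₗ[𝕜] E} (h : Triple P Q R) {x : E}
    (hx : P x + Q x + R x = (14 / 9 : 𝕜) • x) (N : E →ₗ[𝕜] E)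
    (hN : ∀ v, N v = P v + Q v + R v - v) :
    N (N (N (P x))) - (1 / 3 : 𝕜) • N (P x) + (10 / 729 : 𝕜) • P x = 0 := by
  have e1 := h.eqs hx
  have e2 : Q (P x) + Q (R x) = (5 / 9 : 𝕜) • Q x := by
    have := h.rot.eqs (x := x) (by rw [← hx]; abel)
    rw [← this]; abel
  have e3 : R (P x) + R (Q x) = (5 / 9 : 𝕜) • R x := by
    have := h.rot.rot.eqs (x := x) (by rw [← hx]; abel)
    rw [← this]
  -- the value of the triple product on `P x`
  have hD : P (R (Q (P x))) + P (Q (R (P x))) = (-10 / 729 : 𝕜) • P x := by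
    have a1 : Q (P x) = (5 / 9 : 𝕜) • Q x - Q (R x) := by rw [← e2]; abel
    have a2 : R (P x) = (5 / 9 : 𝕜) • R x - R (Q x) := by rw [← e3]; abel
    have b1 : P (R (Q x)) = (5 / 9 : 𝕜) • P (R x) - (1 / 9 : 𝕜) • P x := by
      have : R (Q x) = (5 / 9 : 𝕜) • R x - R (P x) := by rw [← e3]; abel
      rw [this, map_sub, map_smul, h.pr.pqp]
    have b2 : P (Q (R x)) = (5 / 9 : 𝕜) • P (Q x) - (1 / 9 : 𝕜) • P x := by
      have : Q (R x) = (5 / 9 : 𝕜) • Q x - Q (P x) := by rw [← e2]; abel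
      rw [this, map_sub, map_smul, h.pq.pqp]
    have c1 : P (R (Q (P x))) = (5 / 9 : 𝕜) • P (R (Q x)) - (1 / 9 : 𝕜) • P (R x) := by
      rw [a1, map_sub, map_sub, map_smul, map_smul, h.qr.qpq, map_smul]
    have c2 : P (Q (R (P x))) = (5 / 9 : 𝕜) • P (Q (R x)) - (1 / 9 : 𝕜) • P (Q x) := by
      rw [a2, map_sub, map_sub, map_smul, map_smul, h.qr.pqp, map_smul]
    have e1' : P (R x) = (5 / 9 : 𝕜) • P x - P (Q x) := by rw [← e1]; abel
    rw [c1, c2, b1, b2, e1']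
    module
  have n1 : N (P x) = Q (P x) + R (P x) := by
    rw [hN, h.pp]; abel
  have n2 : N (Q (P x)) = (1 / 9 : 𝕜) • P x + R (Q (P x)) := by
    rw [hN, h.qq, h.pq.pqp]; abel
  have n3 : N (R (P x)) = (1 / 9 : 𝕜) • P x + Q (R (P x)) := by
    rw [hN, h.rr, h.pr.pqp]; abel
  have n4 : N (R (Q (P x))) = (1 / 9 : 𝕜) • Q (P x) + P (R (Q (P x))) := by
    rw [hN, h.rr, h.qr.pqp]; abel
  have n5 : N (Q (R (P x))) = (1 / 9 : 𝕜) • R (P x) + P (Q (R (P x))) := by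
    rw [hN, h.qq, h.qr.qpq]; abel
  have hD' : P (R (Q (P x))) = (-10 / 729 : 𝕜) • P x - P (Q (R (P x))) := by
    rw [← hD]; abel
  rw [n1, map_add, n2, n3, map_add, map_add, map_add, map_smul, n4, n5, n1, hD']
  module

/-- `P` is injective on the eigenspace. -/
lemma Triple.inj {P Q R : E →ₗ[𝕜] E} (h : Triple P Q R) {x : E}
    (hx : P x + Q x + R x = (14 / 9 : 𝕜) • x) (h0 : P x = 0) : x = 0 := by
  have e2 : Q (P x) + Q (R x) = (5 / 9 : 𝕜) • Q x := by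
    have := h.rot.eqs (x := x) (by rw [← hx]; abel)
    rw [← this]; abel
  have e3 : R (P x) + R (Q x) = (5 / 9 : 𝕜) • R x := by
    have := h.rot.rot.eqs (x := x) (by rw [← hx]; abel)
    rw [← this]
  rw [h0, map_zero, zero_add] at e2 e3
  have f2 := congrArg norm e2
  have f3 := congrArg norm e3
  rw [norm_smul, h.qr.npq] at f2
  rw [norm_smul, h.qr.nqp] at f3
  have hn : ‖(5 / 9 : 𝕜)‖ = 5 / 9 := by
    rw [norm_div]; simp
  rw [hn] at f2 f3
  have q0 : ‖Q x‖ = 0 := by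
    have := norm_nonneg (Q x); have := norm_nonneg (R x); linarith
  have r0 : ‖R x‖ = 0 := by
    have := norm_nonneg (Q x); have := norm_nonneg (R x); linarith
  rw [norm_eq_zero] at q0 r0
  rw [h0, q0, r0, add_zero, add_zero] at hx
  have : (14 / 9 : 𝕜) ≠ 0 := by
    intro hc
    have := congrArg norm hc
    rw [norm_div] at this; simp at this
  exact (smul_eq_zero.1 hx.symm).resolve_left this

/-- The ranges are independent. -/
lemma Triple.indep {P Q R : E →ₗ[𝕜] E} (h : Triple P Q R) {a b c : E}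
    (ha : P a = a) (hb : Q b = b) (hc : R c = c) (hs : a + b + c = 0) :
    a = 0 ∧ b = 0 ∧ c = 0 := by
  have ea : a = - (P b + P c) := by
    have := congrArg P hs
    rw [map_add, map_add, ha, map_zero] at this
    rw [eq_neg_iff_add_eq_zero, ← add_assoc]; exact this
  have eb : b = - (Q a + Q c) := by
    have := congrArg Q hs
    rw [map_add, map_add, hb, map_zero] at this
    rw [eq_neg_iff_add_eq_zero, ← this]; abel
  have ec : c = - (R a + R b) := by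
    have := congrArg R hs
    rw [map_add, map_add, hc, map_zero] at this
    rw [eq_neg_iff_add_eq_zero, ← this]; abel
  have na : ‖a‖ ≤ 1 / 3 * ‖b‖ + 1 / 3 * ‖c‖ := by
    have h1 := h.pq.npq b
    have h2 := h.pr.npq c
    rw [hb] at h1
    rw [hc] at h2
    calc ‖a‖ = ‖P b + P c‖ := by conv_lhs => rw [ea, norm_neg]
      _ ≤ ‖P b‖ + ‖P c‖ := norm_add_le _ _
      _ = _ := by rw [h1, h2]
  have nb : ‖b‖ ≤ 1 / 3 * ‖a‖ + 1 / 3 * ‖c‖ := by
    have h1 := h.pq.nqp a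
    have h2 := h.qr.npq c
    rw [ha] at h1
    rw [hc] at h2
    calc ‖b‖ = ‖Q a + Q c‖ := by conv_lhs => rw [eb, norm_neg]
      _ ≤ ‖Q a‖ + ‖Q c‖ := norm_add_le _ _
      _ = _ := by rw [h1, h2]
  have nc : ‖c‖ ≤ 1 / 3 * ‖a‖ + 1 / 3 * ‖b‖ := by
    have h1 := h.pr.nqp a
    have h2 := h.qr.nqp b
    rw [ha] at h1
    rw [hb] at h2
    calc ‖c‖ = ‖R a + R b‖ := by conv_lhs => rw [ec, norm_neg]
      _ ≤ ‖R a‖ + ‖R b‖ := norm_add_le _ _
      _ = _ := by rw [h1, h2]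
  have pa := norm_nonneg a
  have pb := norm_nonneg b
  have pc := norm_nonneg c
  refine ⟨norm_eq_zero.1 (by linarith), norm_eq_zero.1 (by linarith), norm_eq_zero.1 (by linarith)⟩

/-- The space spanned by the components of the vectors of `K`. -/
def span3 (P Q R : E →ₗ[𝕜] E) (K : Submodule 𝕜 E) : Submodule 𝕜 E :=
  K.map P ⊔ K.map Q ⊔ K.map R

lemma Triple.cubic_span {P Q R : E →ₗ[𝕜] E} (h : Triple P Q R) {K : Submodule 𝕜 E}
    (hK : ∀ x ∈ K, P x + Q x + R x = (14 / 9 : 𝕜) • x) (N : E →ₗ[𝕜] E)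
    (hN : ∀ v, N v = P v + Q v + R v - v) :
    ∀ v ∈ span3 P Q R K, N (N (N v)) - (1 / 3 : 𝕜) • N v + (10 / 729 : 𝕜) • v = 0 := by
  let L : E →ₗ[𝕜] E := N ∘ₗ N ∘ₗ N - (1 / 3 : 𝕜) • N + (10 / 729 : 𝕜) • LinearMap.id
  have hL : ∀ v, L v = N (N (N v)) - (1 / 3 : 𝕜) • N v + (10 / 729 : 𝕜) • v := fun v => rfl
  have hle : span3 P Q R K ≤ LinearMap.ker L := by
    refine sup_le (sup_le ?_ ?_) ?_
    · rintro _ ⟨x, hx, rfl⟩
      rw [LinearMap.mem_ker, hL]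
      exact h.cubic (hK x hx) N hN
    · rintro _ ⟨x, hx, rfl⟩
      rw [LinearMap.mem_ker, hL]
      refine h.rot.cubic (x := x) ?_ N ?_
      · rw [← hK x hx]; abel
      · intro v; rw [hN]; abel
    · rintro _ ⟨x, hx, rfl⟩
      rw [LinearMap.mem_ker, hL]
      refine h.rot.rot.cubic (x := x) ?_ N ?_
      · rw [← hK x hx]; abel
      · intro v; rw [hN]; abel
  intro v hv
  have := hle hv
  rwa [LinearMap.mem_ker, hL] at this

lemma finrank_map_of_inj [FiniteDimensional 𝕜 E] (P : E →ₗ[𝕜] E) (K : Submodule 𝕜 E)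
    (h : ∀ x ∈ K, P x = 0 → x = 0) : finrank 𝕜 (K.map P) = finrank 𝕜 K := by
  have hinj : Function.Injective (P.domRestrict K) := by
    rw [← LinearMap.ker_eq_bot, LinearMap.ker_eq_bot']
    intro x hx
    exact Subtype.ext (h x x.2 hx)
  have := LinearMap.finrank_range_of_inj hinj
  rw [← this, LinearMap.range_domRestrict]

lemma Triple.finrank_span [FiniteDimensional 𝕜 E] {P Q R : E →ₗ[𝕜] E} (h : Triple P Q R)
    {K : Submodule 𝕜 E} (hK : ∀ x ∈ K, P x + Q x + R x = (14 / 9 : 𝕜) • x) :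
    finrank 𝕜 (span3 P Q R K) = 3 * finrank 𝕜 K := by
  have k1 : finrank 𝕜 (K.map P) = finrank 𝕜 K :=
    finrank_map_of_inj P K fun x hx h0 => h.inj (hK x hx) h0
  have k2 : finrank 𝕜 (K.map Q) = finrank 𝕜 K :=
    finrank_map_of_inj Q K fun x hx h0 => h.rot.inj (by rw [← hK x hx]; abel) h0
  have k3 : finrank 𝕜 (K.map R) = finrank 𝕜 K :=
    finrank_map_of_inj R K fun x hx h0 => h.rot.rot.inj (by rw [← hK x hx]; abel) h0
  have d1 : K.map P ⊓ K.map Q = ⊥ := by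
    rw [Submodule.eq_bot_iff]
    rintro y ⟨⟨x, hx, rfl⟩, ⟨z, hz, hzy⟩⟩
    exact (h.indep (a := P x) (b := - Q z) (c := 0) (h.pp x) (by rw [map_neg, h.qq]) (map_zero _)
      (by rw [hzy]; abel)).1
  have d2 : (K.map P ⊔ K.map Q) ⊓ K.map R = ⊥ := by
    rw [Submodule.eq_bot_iff]
    rintro y ⟨hy, ⟨z, hz, rfl⟩⟩
    obtain ⟨u, ⟨x, hx, rfl⟩, v, ⟨w, hw, rfl⟩, huv⟩ := Submodule.mem_sup.1 hy
    have := (h.indep (a := P x) (b := Q w) (c := - R z) (h.pp x) (h.qq w)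
      (by rw [map_neg, h.rr]) (by rw [huv]; abel)).2.2
    exact neg_eq_zero.1 this
  have s1 := Submodule.finrank_sup_add_finrank_inf_eq (K.map P) (K.map Q)
  have s2 := Submodule.finrank_sup_add_finrank_inf_eq (K.map P ⊔ K.map Q) (K.map R)
  rw [d1, finrank_bot, k1, k2] at s1
  rw [d2, finrank_bot, k3] at s2
  unfold span3
  omega

/-- The two cubic relations exclude each other. -/
lemma cubic_disjoint (N : E →ₗ[𝕜] E) (N' : E →ₗ[𝕜] E)
    (hN : ∀ v, N' v = - ((4 / 9 : 𝕜) • v) - N v) (v : E)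
    (h1 : N (N (N v)) - (1 / 3 : 𝕜) • N v + (10 / 729 : 𝕜) • v = 0)
    (h2 : N' (N' (N' v)) - (1 / 3 : 𝕜) • N' v + (10 / 729 : 𝕜) • v = 0) : v = 0 := by
  have g2 : N (N v) + (4 / 9 : 𝕜) • N v - (16 / 243 : 𝕜) • v = 0 := by
    rw [hN (N' (N' v)), hN (N' v), hN v] at h2
    simp only [map_sub, map_neg, map_smul] at h2
    have : N (N v) + (4 / 9 : 𝕜) • N v - (16 / 243 : 𝕜) • v =
      (-3 / 4 : 𝕜) • ((N (N (N v)) - (1 / 3 : 𝕜) • N v + (10 / 729 : 𝕜) • v) + 0) := by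
      rw [← h2]
      module
    rw [this, h1]; simp
  have g3 : N (N (N v)) + (4 / 9 : 𝕜) • N (N v) - (16 / 243 : 𝕜) • N v = 0 := by
    have := congrArg N g2
    simpa only [map_sub, map_add, map_smul, map_zero] using this
  have g4 : N v + (2 / 9 : 𝕜) • v = 0 := by
    have : N v + (2 / 9 : 𝕜) • v = (-243 / 17 : 𝕜) •
      ((N (N (N v)) - (1 / 3 : 𝕜) • N v + (10 / 729 : 𝕜) • v) -
      (N (N (N v)) + (4 / 9 : 𝕜) • N (N v) - (16 / 243 : 𝕜) • N v) +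
      (4 / 9 : 𝕜) • (N (N v) + (4 / 9 : 𝕜) • N v - (16 / 243 : 𝕜) • v)) := by
      module
    rw [this, h1, g3, g2]; simp
  have g5 : N (N v) + (2 / 9 : 𝕜) • N v = 0 := by
    have := congrArg N g4
    simpa only [map_add, map_smul, map_zero] using this
  have : v = (-243 / 28 : 𝕜) • ((N (N v) + (4 / 9 : 𝕜) • N v - (16 / 243 : 𝕜) • v) -
      (N (N v) + (2 / 9 : 𝕜) • N v) - (2 / 9 : 𝕜) • (N v + (2 / 9 : 𝕜) • v)) := by
    module
  rw [this, g2, g5, g4]; simp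

end Pool.Agent.T2H59.EI
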